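import Mathlib
import Pool.Agent.Q235.SY.Conv

/-!
# Forms which are positive on average on amenable coverings of complements

`X` is a closed manifold with a continuous almost complex structure `J`, `K` is a closed subset of
`X` whose `(d-1)`-dimensional Hausdorff measure is zero, and `pr : Z → X ∖ K` is a covering whose
fibres are the orbits of a group `Γ` with an invariant mean `m`.  A closed two-form `w` on `Z` is
called positive on average if its translates are bounded with all derivatives, it is bounded over
neighbourhoods of the points of `K`, the mean of its translates is nonnegative at `(u, J u)`, and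
the set of the points of `X` over whose neighbourhoods this mean is not uniformly positive has
small components.  Then `J` is tamed by a symplectic form on `X` if and only if there is such a
form `w` on `Z`; and if there is, then the symplectic form can be taken equal to the mean of the
translates of `w` plus a smooth exact form on `X`, outside a given neighbourhood of `K`.
-/

set_option autoImplicit false

open Set MeasureTheory
open scoped Manifold ContDiff

noncomputable section

namespace Pool.Agent.Results.MP_9986fc_gt.AmenableComplements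

open Pool.Agent.Y501.SYP Pool.Agent.Q235.SYP

/-- `K` is closed and its `(d-1)`-dimensional Hausdorff measure is zero (in every chart). -/
def ClosedNull (d : ℕ) {X : Type} [TopologicalSpace X] [ChartedSpace (ES d) X] (K : Set X) :
    Prop :=
  IsClosed K ∧ ∀ x : X, μH[(d : ℝ) - 1] (chartAt (ES d) x '' (K ∩ (chartAt (ES d) x).source)) = 0

section

variable {V Z X : Type} [NormedAddCommGroup V] [NormedSpace ℝ V] [TopologicalSpace Z]
    [ChartedSpace V Z] [TopologicalSpace X] [ChartedSpace V X] {Γ : Type} [Group Γ] [MulAction Γ Z]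

/-- The closed two-form `w` on `Z` has bounded translates, is bounded over the points of `K` and
is positive on average with respect to the mean `m`. -/
structure PositiveOnAverage [MeasurableSpace V] [BorelSpace V] (m : (Γ → ℝ) → ℝ) (pr : Z → X)
    (K : Set X) (J : End V X) (w : Form V Z 2) : Prop where
  smooth : IsSmooth w
  closed : IsClosedForm w
  translates : BoundedTranslates Γ w
  bounded : ∀ x ∈ K, BddOver pr w x
  nonneg : ∀ (z : Z) (u v : TangentSpace 𝓘(ℝ, V) z), IsLift pr J z u v → 0 ≤ meanAt m w z u v
  small : ∀ x ∈ MeanCrit m pr J w, SmallAll J (connectedComponentIn (MeanCrit m pr J w) x) x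

/-- the value of the pull-back by `pr` of the two-form `σ` on `X` -/
def pullAt (pr : Z → X) (σ : Form V X 2) (z : Z) (u v : TangentSpace 𝓘(ℝ, V) z) : ℝ :=
  σ (pr z) ![mfderiv 𝓘(ℝ, V) 𝓘(ℝ, V) pr z u, mfderiv 𝓘(ℝ, V) 𝓘(ℝ, V) pr z v]

/-- Outside `U`, the two-form `σ` on `X` is the mean of the translates of `w` plus a smooth exact
form on `X`. -/
def MeanPlusExact (m : (Γ → ℝ) → ℝ) (pr : Z → X) (w : Form V Z 2) (U : Set X)
    (σ : Form V X 2) : Prop :=
  ∃ (α : Form V X 1) (η : Form V X 2), IsSmooth α ∧ IsSmooth η ∧ IsD α η ∧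
    ∀ z : Z, pr z ∉ U → ∀ u v : TangentSpace 𝓘(ℝ, V) z,
      pullAt pr σ z u v = meanAt m w z u v + pullAt pr η z u v

end

theorem result (d : ℕ) (hd : 1 ≤ d) (Z X : Type) [TopologicalSpace Z] [ChartedSpace (ES d) Z]
    [IsManifold 𝓘(ℝ, ES d) ∞ Z] [TopologicalSpace X] [ChartedSpace (ES d) X]
    [IsManifold 𝓘(ℝ, ES d) ∞ X] [CompactSpace X] [T2Space X]
    (Γ : Type) [Group Γ] [MulAction Γ Z] (m : (Γ → ℝ) → ℝ) (hm : IsMean m)
    (J : End (ES d) X) (hJ : IsAlmostComplex J) (K : Set X) (hK : ClosedNull d K)
    (pr : Z → X) (hpr : CoveringOff (ES d) Γ pr K) :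
    ((∃ σ : Form (ES d) X 2, IsTamingSymplectic σ J) ↔
      ∃ w : Form (ES d) Z 2, PositiveOnAverage m pr K J w) ∧
    ∀ w : Form (ES d) Z 2, PositiveOnAverage m pr K J w → ∀ U : Set X, IsOpen U → K ⊆ U →
      ∃ σ : Form (ES d) X 2, IsTamingSymplectic σ J ∧ MeanPlusExact m pr w U σ := by
  refine ⟨?_, fun w hw U hU hKU => ?_⟩
  · rw [equiv hd hm J hJ K hK.1 hK.2 pr hpr]
    constructor
    · rintro ⟨w, h1, h2, h3, h4, h5, h6⟩
      exact ⟨w, h1, h2, h3, h4, h5, h6⟩
    · rintro ⟨w, h⟩
      exact ⟨w, h.smooth, h.closed, h.translates, h.bounded, h.nonneg, h.small⟩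
  · obtain ⟨α, η, σ, h1, h2, h3, h4, h5⟩ := main hd hm J hJ K hK.1 hK.2 pr hpr w hw.smooth
      hw.closed hw.translates hw.bounded hw.nonneg hw.small U hU hKU
    exact ⟨σ, h4, α, η, h1, h2, h3, h5⟩

end Pool.Agent.Results.MP_9986fc_gt.AmenableComplements
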