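import Mathlib
import Pool.Agent.Q235.SZ.Final

/-!
# Isolated singularities of order less than two of taming forms

`X` is a closed manifold of dimension `d ≥ 4` with a continuous almost complex structure `J`, `K`
is a closed subset of `X` whose `(d-1)`-dimensional Hausdorff measure is zero, and `T` is a finite
subset of `K` at the points of which `J` is Hölder continuous.  `σ` is a closed two-form on the
complement of `K`, bounded near the points of `K ∖ T`, with `dist(x, ·)² |σ| → 0` at the points
`x` of `T`, and it is nonnegative on `(v, J v)`, uniformly positive away from a set with small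
components.  Such a form exists if and only if `J` is tamed by a symplectic form on `X`, and then
there is one which is equal to `σ` plus a smooth exact form on `X` outside a given neighbourhood
of `K`.
-/

set_option autoImplicit false

open Set MeasureTheory
open scoped Manifold ContDiff

noncomputable section

namespace Pool.Agent.Results.MP_9986fc_gt.IsolatedSingularities

open Pool.Agent.Y501.SYP Pool.Agent.Q235.SZP

/-- `K` is closed and its `(d-1)`-dimensional Hausdorff measure is zero (in every chart). -/
def ClosedNull (d : ℕ) {X : Type} [TopologicalSpace X] [ChartedSpace (ES d) X] (K : Set X) :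
    Prop :=
  IsClosed K ∧ ∀ x : X, μH[(d : ℝ) - 1] (chartAt (ES d) x '' (K ∩ (chartAt (ES d) x).source)) = 0

section

variable {V X : Type} [NormedAddCommGroup V] [NormedSpace ℝ V] [TopologicalSpace X]
    [ChartedSpace V X]

/-- `σ` is smooth and closed off `K`, bounded near the points of `K` outside `T`, with
singularities of order less than two at the points of `T`; it is nonnegative on `(v, J v)`, and
the set of the points near which it does not tame `J` uniformly has small components. -/
structure WeaklyTaming [MeasurableSpace V] [BorelSpace V] (J : End V X) (K T : Set X)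
    (σ : Form V X 2) : Prop where
  closed : ClosedOff σ K
  bounded : ∀ x ∈ K, x ∉ T → BddNear σ K x
  order : ∀ x ∈ T, OrderLtTwo σ K x
  nonneg : ∀ x, x ∉ K → ∀ v : TangentSpace 𝓘(ℝ, V) x, 0 ≤ qd σ J x v
  small : ∀ x ∈ Crit σ J K, SmallAll J (connectedComponentIn (Crit σ J K) x) x

end

theorem result (d : ℕ) (hd : 4 ≤ d) (X : Type) [TopologicalSpace X] [ChartedSpace (ES d) X]
    [IsManifold 𝓘(ℝ, ES d) ∞ X] [CompactSpace X] [T2Space X]
    (J : End (ES d) X) (hJ : IsAlmostComplex J) (K T : Set X) (hK : ClosedNull d K)
    (hT : T.Finite) (hTK : T ⊆ K) (hol : ∀ x ∈ T, HolderAt J x) :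
    ((∃ w : Form (ES d) X 2, IsTamingSymplectic w J) ↔
      ∃ σ : Form (ES d) X 2, WeaklyTaming J K T σ) ∧
    ∀ σ : Form (ES d) X 2, WeaklyTaming J K T σ → ∀ U : Set X, IsOpen U → K ⊆ U →
      ∃ (α : Form (ES d) X 1) (η w : Form (ES d) X 2), IsSmooth α ∧ IsSmooth η ∧ IsD α η ∧
        IsTamingSymplectic w J ∧ ∀ x, x ∉ U → w x = addF σ η x := by
  have key : ∀ σ : Form (ES d) X 2, WeaklyTaming J K T σ → ∀ U : Set X, IsOpen U → K ⊆ U →
      ∃ (α : Form (ES d) X 1) (η w : Form (ES d) X 2), IsSmooth α ∧ IsSmooth η ∧ IsD α η ∧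
        IsTamingSymplectic w J ∧ ∀ x, x ∉ U → w x = addF σ η x :=
    fun σ h U hU hKU => isolated hd J hJ K hK.1 hK.2 T hT hTK hol σ h.closed h.bounded h.order
      h.nonneg h.small U hU hKU
  refine ⟨⟨?_, ?_⟩, key⟩
  · rintro ⟨w, hw⟩
    obtain ⟨h1, h2, h3, h4, h5⟩ := conv_iso J hJ K w hw
    exact ⟨w, h1, fun x _ _ => h2 x, fun x _ => h3 x, fun x _ => h4 x, fun x hx => by
      rw [h5] at hx
      exact absurd hx (notMem_empty x)⟩
  · rintro ⟨σ, hσ⟩
    obtain ⟨-, -, w, -, -, -, hw, -⟩ := key σ hσ univ isOpen_univ (subset_univ _)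
    exact ⟨w, hw⟩

end Pool.Agent.Results.MP_9986fc_gt.IsolatedSingularities
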