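import Mathlib
import Pool.Agent.Q235.SQ.FinalQ

/-!
# Closed two-forms which are positive up to a set of small weighted two-dimensional content

`X` is a closed manifold of dimension `d ≥ 4` with an embedding `F` in a Euclidean space, which
defines lengths of tangent vectors and distances of points of `X`, and with a locally Hölder
continuous (for example smooth) almost complex structure `J`.  There is a number `ε > 0`, which
depends only on `X`, `F` and `J`, with the following property.  Let `σ` be a closed two-form on
`X` such that `σ(v, J v) ≥ |v|²` except in balls of radii `r i`, where `σ(v, J v) ≥ -C i |v|²`.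
If the sum of the numbers `(1 + C i) (r i)²` is at most `ε`, then `σ` plus some exact form is a
symplectic form taming `J`.  More generally `σ` may be singular along a closed set `K` whose
`(d-1)`-dimensional Hausdorff measure is zero.
-/

set_option autoImplicit false

open Set MeasureTheory
open scoped Manifold ContDiff

noncomputable section

namespace Pool.Agent.Results.MP_9986fc_gt.SmallContent

open Pool.Agent.Y501.SYP Pool.Agent.Q235.SZP Pool.Agent.Q235.SQP

/-- `K` is closed and its `(d-1)`-dimensional Hausdorff measure is zero (in every chart). -/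
def ClosedNull (d : ℕ) {X : Type} [TopologicalSpace X] [ChartedSpace (ES d) X] (K : Set X) :
    Prop :=
  IsClosed K ∧ ∀ x : X, μH[(d : ℝ) - 1] (chartAt (ES d) x '' (K ∩ (chartAt (ES d) x).source)) = 0

theorem result (d m : ℕ) (hd : 4 ≤ d) (X : Type) [TopologicalSpace X] [ChartedSpace (ES d) X]
    [IsManifold 𝓘(ℝ, ES d) ∞ X] [CompactSpace X] [T2Space X] (F : X → ES m)
    (hF : IsEmb (V := ES d) F) (J : End (ES d) X) (hJ : IsAlmostComplex J) (hol : LocHolder J) :
    ∃ ε : ℝ, 0 < ε ∧ ∀ (K T : Set X), ClosedNull d K → T.Finite → T ⊆ K →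
      ∀ σ : Form (ES d) X 2, ClosedSing K T σ →
      ∀ (ι : Type) (x : ι → X) (r C : ι → ℝ), SmallBalls ε r C →
      (∀ y, AtLeast F J σ K 1 y ∨ ∃ i, ‖F y - F (x i)‖ < r i ∧ AtLeast F J σ K (-C i) y) →
      ∀ U : Set X, IsOpen U → K ⊆ U →
      ∃ (α : Form (ES d) X 1) (η w : Form (ES d) X 2), IsSmooth α ∧ IsSmooth η ∧ IsD α η ∧
        IsTamingSymplectic w J ∧ ∀ x, x ∉ U → w x = addF σ η x := by
  obtain ⟨ε, hε, h⟩ := smallF hd F hF J hJ hol
  exact ⟨ε, hε, fun K T hK hT hTK σ hσ ι x r C hr hpos U hU hKU =>
    h K T hK.1 hK.2 hT hTK σ hσ ι x r C hr hpos U hU hKU⟩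

end Pool.Agent.Results.MP_9986fc_gt.SmallContent
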