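import Mathlib
import Pool.Agent.Q235.SR.FinalR

/-!
# Taming symplectic forms across sets of zero length

`X` is a manifold with a continuous almost complex structure `J`, `K` is a compact subset of `X`
with one-dimensional Hausdorff measure zero, and `J` is Hölder continuous near `K`.  Let `σ` be a
symplectic form on the complement of `K` which tames `J` there.  If near every point of `K` the
form `σ` has a bounded primitive (at the isolated points of `K`, a primitive which is `o(dist⁻¹)`),
then for every neighbourhood `U` of `K` there is a symplectic form on `X` which tames `J` and is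
equal to `σ` outside `U`.  No bound of `σ` itself is assumed, and `σ` may degenerate at `K`.
-/

set_option autoImplicit false

open Set MeasureTheory
open scoped Manifold ContDiff

noncomputable section

namespace Pool.Agent.Results.MP_9986fc_gt.ZeroLength

open Pool.Agent.Y501.SYP Pool.Agent.Q235.SRP

/-- `K` is compact and its one-dimensional Hausdorff measure is zero (in every chart). -/
def CompactZeroLength (d : ℕ) {X : Type} [TopologicalSpace X] [ChartedSpace (ES d) X]
    (K : Set X) : Prop :=
  IsCompact K ∧ ∀ x : X, μH[1] (chartAt (ES d) x '' (K ∩ (chartAt (ES d) x).source)) = 0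

theorem result (d : ℕ) (X : Type) [TopologicalSpace X] [ChartedSpace (ES d) X]
    [IsManifold 𝓘(ℝ, ES d) ∞ X] [T2Space X] (J : End (ES d) X) (hJ : IsAlmostComplex J)
    (K : Set X) (hK : CompactZeroLength d K) (hol : ∀ x ∈ K, HolderNear J x)
    (σ : Form (ES d) X 2) (hσ : TamingOff J σ K) (U : Set X) (hU : IsOpen U) (hKU : K ⊆ U) :
    ∃ w : Form (ES d) X 2, IsTamingSymplectic w J ∧ ∀ x, x ∉ U → w x = σ x :=
  fillR J hJ K hK.1 hK.2 hol σ hσ U hU hKU

end Pool.Agent.Results.MP_9986fc_gt.ZeroLength
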